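import Mathlib
import Pool.Agent.H127_SB.RelAlg
import Pool.Agent.H127_SB.Bridge

/-!
MP_9348f6_lc, Q1: the answer is yes. If the network satisfaction problem of a finite symmetric relation
algebra with a normal representation with primitive automorphism group is solved by the
`(k, l)`-consistency procedure for some `k ≤ l`, then the algebra admits a Siggers behaviour.

The definitions are in `Pool.Agent.H127_SB.RelAlg`.
-/

namespace Pool.Agent.Results.MP_9348f6_lc.SiggersNecessary

open Pool.Agent.H127_SB

universe u v

/-- Let `A` be a finite symmetric relation algebra with a normal representation `R` on `B` such that the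
automorphism group of `R` is primitive. If for some `k ≤ l` the `(k, l)`-consistency procedure rejects exactly
the unsatisfiable instances, then `A` admits a Siggers behaviour. -/
theorem result {A : Type u} [RelAlg A] [Finite A] {B : Type v} (R : SqRep A B)
    (hsymm : IsSymmetric A) (hnormal : R.Normal) (hprim : R.Primitive)
    (hsolved : R.SolvedByConsistency) : AdmitsSiggers A :=
  R.main hsymm hnormal hprim hsolved

end Pool.Agent.Results.MP_9348f6_lc.SiggersNecessary
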